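import Pool.Agent.helper74.VQ.SpecB

/-!
# Row VRM of project VQ (MP_07c750_an): the beam equation
-/

set_option autoImplicit false

open scoped MatrixGroups ContDiff Topology UpperHalfPlane ComplexConjugate ENNReal
open UpperHalfPlane MeasureTheory Filter Set

namespace Pool.Agent.VQ

open Pool.Agent.RS

noncomputable section

/-! ## The product of an amplitude and an exponential -/

theorem VRM_hf (X Q : ℂ → ℂ) (c v : ℂ) (hX : DifferentiableAt ℝ X v) (hQ : DifferentiableAt ℝ Q v) :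
    HasFDerivAt (fun u => X u * (c * Complex.exp (Q u)))
      (X v • (c • (Complex.exp (Q v) • fderiv ℝ Q v)) + (c * Complex.exp (Q v)) • fderiv ℝ X v) v := by
  have h1 : HasFDerivAt (fun u => c * Complex.exp (Q u)) (c • (Complex.exp (Q v) • fderiv ℝ Q v)) v :=
    hQ.hasFDerivAt.cexp.const_mul c
  exact hX.hasFDerivAt.mul h1

theorem VRM_f1 (X Q : ℂ → ℂ) (c v w : ℂ) (hX : DifferentiableAt ℝ X v) (hQ : DifferentiableAt ℝ Q v) :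
    fderiv ℝ (fun u => X u * (c * Complex.exp (Q u))) v w =
      (X v * fderiv ℝ Q v w + fderiv ℝ X v w) * (c * Complex.exp (Q v)) := by
  rw [(VRM_hf X Q c v hX hQ).fderiv]
  simp only [_root_.add_apply, _root_.smul_apply, smul_eq_mul]
  ring

theorem VRM_app (A : ℂ → ℂ) (v w : ℂ) (hA : DifferentiableAt ℝ (fderiv ℝ A) v) :
    fderiv ℝ (fderiv ℝ A) v w w = fderiv ℝ (fun u => fderiv ℝ A u w) v w := by
  rw [fderiv_clm_apply hA (differentiableAt_const w)]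
  simp

theorem VRM_f2 (X Q : ℂ → ℂ) (c v w : ℂ) (hX : ContDiff ℝ 2 X) (hQ : ContDiff ℝ 2 Q) :
    fderiv ℝ (fderiv ℝ (fun u => X u * (c * Complex.exp (Q u)))) v w w =
      (fderiv ℝ (fderiv ℝ X) v w w + 2 * fderiv ℝ X v w * fderiv ℝ Q v w +
        X v * (fderiv ℝ (fderiv ℝ Q) v w w + fderiv ℝ Q v w ^ 2)) * (c * Complex.exp (Q v)) := by
  have hX0 : Differentiable ℝ X := hX.differentiable (by norm_num)
  have hQ0 : Differentiable ℝ Q := hQ.differentiable (by norm_num)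
  have hX1 : Differentiable ℝ (fderiv ℝ X) :=
    (hX.fderiv_right (m := 1) (by norm_num)).differentiable (by norm_num)
  have hQ1 : Differentiable ℝ (fderiv ℝ Q) :=
    (hQ.fderiv_right (m := 1) (by norm_num)).differentiable (by norm_num)
  have hA : ContDiff ℝ 2 (fun u => X u * (c * Complex.exp (Q u))) :=
    hX.mul (contDiff_const.mul hQ.cexp)
  have hA1 : Differentiable ℝ (fderiv ℝ (fun u => X u * (c * Complex.exp (Q u)))) :=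
    (hA.fderiv_right (m := 1) (by norm_num)).differentiable (by norm_num)
  rw [VRM_app _ v w (hA1 v), VRM_app X v w (hX1 v), VRM_app Q v w (hQ1 v)]
  have hXw : DifferentiableAt ℝ (fun u => fderiv ℝ X u w) v := (hX1 v).clm_apply (differentiableAt_const w)
  have hQw : DifferentiableAt ℝ (fun u => fderiv ℝ Q u w) v := (hQ1 v).clm_apply (differentiableAt_const w)
  have hfun : (fun u => fderiv ℝ (fun u => X u * (c * Complex.exp (Q u))) u w) =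
      fun u => (X u * fderiv ℝ Q u w + fderiv ℝ X u w) * (c * Complex.exp (Q u)) := by
    funext u
    exact VRM_f1 X Q c u w (hX0 u) (hQ0 u)
  rw [hfun]
  have hB : HasFDerivAt (fun u => X u * fderiv ℝ Q u w + fderiv ℝ X u w)
      ((X v • fderiv ℝ (fun u => fderiv ℝ Q u w) v + fderiv ℝ Q v w • fderiv ℝ X v) +
        fderiv ℝ (fun u => fderiv ℝ X u w) v) v :=
    ((hX0 v).hasFDerivAt.mul hQw.hasFDerivAt).add hXw.hasFDerivAt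
  rw [VRM_f1 (fun u => X u * fderiv ℝ Q u w + fderiv ℝ X u w) Q c v w hB.differentiableAt (hQ0 v), hB.fderiv]
  simp only [_root_.add_apply, _root_.smul_apply, smul_eq_mul]
  ring

/-! ## The phase -/

/-- the real part as a complex number -/
def VRM_re : ℂ →L[ℝ] ℂ := Complex.ofRealCLM.comp Complex.reCLM

/-- the imaginary part as a complex number -/
def VRM_im : ℂ →L[ℝ] ℂ := Complex.ofRealCLM.comp Complex.imCLM

theorem VRM_re_apply (v : ℂ) : VRM_re v = (v.re : ℂ) := rfl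

theorem VRM_im_apply (v : ℂ) : VRM_im v = (v.im : ℂ) := rfl

/-- the phase -/
def VRM_Q (R S ρ : ℝ) (M : Matrix (Fin 2) (Fin 2) ℂ) (v : ℂ) : ℂ :=
  Complex.I * (R : ℂ) * (((S + ρ * v.re : ℝ) : ℂ) + qf M v / 2)

theorem VRM_Q_eq (R S ρ : ℝ) (M : Matrix (Fin 2) (Fin 2) ℂ) : VRM_Q R S ρ M = fun v =>
    Complex.I * (R : ℂ) * (((S : ℂ) + (ρ : ℂ) * VRM_re v) + (1 / 2 * M 0 0 * (VRM_re v * VRM_re v) +
      (1 / 2 * (M 0 1 + M 1 0)) * (VRM_re v * VRM_im v) + 1 / 2 * M 1 1 * (VRM_im v * VRM_im v))) := by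
  funext v
  simp only [VRM_Q, qf, VRM_re_apply, VRM_im_apply]
  push_cast
  ring

theorem VRM_Q_smooth (R S ρ : ℝ) (M : Matrix (Fin 2) (Fin 2) ℂ) : ContDiff ℝ ∞ (VRM_Q R S ρ M) := by
  rw [VRM_Q_eq]
  have h1 : ContDiff ℝ ∞ (fun v => VRM_re v) := VRM_re.contDiff
  have h2 : ContDiff ℝ ∞ (fun v => VRM_im v) := VRM_im.contDiff
  fun_prop

theorem VRM_hre (v : ℂ) : HasFDerivAt (fun v => VRM_re v) VRM_re v := VRM_re.hasFDerivAt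

theorem VRM_him (v : ℂ) : HasFDerivAt (fun v => VRM_im v) VRM_im v := VRM_im.hasFDerivAt

theorem VRM_Q_f1 (R S ρ : ℝ) (M : Matrix (Fin 2) (Fin 2) ℂ) (v w : ℂ) :
    fderiv ℝ (VRM_Q R S ρ M) v w = Complex.I * (R : ℂ) *
      (((ρ : ℂ) + M 0 0 * (v.re : ℂ) + (M 0 1 + M 1 0) / 2 * (v.im : ℂ)) * (w.re : ℂ) +
        ((M 0 1 + M 1 0) / 2 * (v.re : ℂ) + M 1 1 * (v.im : ℂ)) * (w.im : ℂ)) := by
  have h1 := VRM_hre v
  have h2 := VRM_him v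
  have h3 : HasFDerivAt (fun v => (S : ℂ) + (ρ : ℂ) * VRM_re v) ((ρ : ℂ) • VRM_re) v :=
    (h1.const_mul (ρ : ℂ)).const_add (S : ℂ)
  have h4 : HasFDerivAt (fun v => 1 / 2 * M 0 0 * (VRM_re v * VRM_re v))
      ((1 / 2 * M 0 0) • (VRM_re v • VRM_re + VRM_re v • VRM_re)) v :=
    (h1.mul h1).const_mul (1 / 2 * M 0 0)
  have h5 : HasFDerivAt (fun v => (1 / 2 * (M 0 1 + M 1 0)) * (VRM_re v * VRM_im v))
      ((1 / 2 * (M 0 1 + M 1 0)) • (VRM_re v • VRM_im + VRM_im v • VRM_re)) v :=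
    (h1.mul h2).const_mul (1 / 2 * (M 0 1 + M 1 0))
  have h6 : HasFDerivAt (fun v => 1 / 2 * M 1 1 * (VRM_im v * VRM_im v))
      ((1 / 2 * M 1 1) • (VRM_im v • VRM_im + VRM_im v • VRM_im)) v :=
    (h2.mul h2).const_mul (1 / 2 * M 1 1)
  have h8 : HasFDerivAt (VRM_Q R S ρ M) ((Complex.I * (R : ℂ)) • ((ρ : ℂ) • VRM_re +
      ((1 / 2 * M 0 0) • (VRM_re v • VRM_re + VRM_re v • VRM_re) +
        (1 / 2 * (M 0 1 + M 1 0)) • (VRM_re v • VRM_im + VRM_im v • VRM_re) +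
        (1 / 2 * M 1 1) • (VRM_im v • VRM_im + VRM_im v • VRM_im)))) v := by
    rw [VRM_Q_eq]
    exact (h3.add ((h4.add h5).add h6)).const_mul (Complex.I * (R : ℂ))
  rw [h8.fderiv]
  simp only [_root_.add_apply, _root_.smul_apply, smul_eq_mul, VRM_re_apply, VRM_im_apply]
  ring

theorem VRM_Q_f2 (R S ρ : ℝ) (M : Matrix (Fin 2) (Fin 2) ℂ) (v w : ℂ) :
    fderiv ℝ (fderiv ℝ (VRM_Q R S ρ M)) v w w = Complex.I * (R : ℂ) *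
      (M 0 0 * (w.re : ℂ) ^ 2 + (M 0 1 + M 1 0) * ((w.re : ℂ) * (w.im : ℂ)) + M 1 1 * (w.im : ℂ) ^ 2) := by
  have hd : Differentiable ℝ (fderiv ℝ (VRM_Q R S ρ M)) :=
    ((VRM_Q_smooth R S ρ M).fderiv_right (m := 1) (by norm_cast)).differentiable (by norm_num)
  rw [VRM_app _ v w (hd v)]
  have hfun : (fun u => fderiv ℝ (VRM_Q R S ρ M) u w) = fun u => Complex.I * (R : ℂ) *
      (((ρ : ℂ) + M 0 0 * VRM_re u + (M 0 1 + M 1 0) / 2 * VRM_im u) * (w.re : ℂ) +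
        ((M 0 1 + M 1 0) / 2 * VRM_re u + M 1 1 * VRM_im u) * (w.im : ℂ)) :=
    funext fun u => VRM_Q_f1 R S ρ M u w
  rw [hfun]
  have h1 := VRM_hre v
  have h2 := VRM_him v
  have h3 : HasFDerivAt (fun u => (ρ : ℂ) + M 0 0 * VRM_re u + (M 0 1 + M 1 0) / 2 * VRM_im u)
      (M 0 0 • VRM_re + ((M 0 1 + M 1 0) / 2) • VRM_im) v :=
    ((h1.const_mul (M 0 0)).const_add (ρ : ℂ)).add (h2.const_mul ((M 0 1 + M 1 0) / 2))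
  have h4 : HasFDerivAt (fun u => (M 0 1 + M 1 0) / 2 * VRM_re u + M 1 1 * VRM_im u)
      (((M 0 1 + M 1 0) / 2) • VRM_re + M 1 1 • VRM_im) v :=
    (h1.const_mul ((M 0 1 + M 1 0) / 2)).add (h2.const_mul (M 1 1))
  have h5 : HasFDerivAt (fun u => Complex.I * (R : ℂ) *
      (((ρ : ℂ) + M 0 0 * VRM_re u + (M 0 1 + M 1 0) / 2 * VRM_im u) * (w.re : ℂ) +
        ((M 0 1 + M 1 0) / 2 * VRM_re u + M 1 1 * VRM_im u) * (w.im : ℂ)))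
      ((Complex.I * (R : ℂ)) • ((w.re : ℂ) • (M 0 0 • VRM_re + ((M 0 1 + M 1 0) / 2) • VRM_im) +
        (w.im : ℂ) • (((M 0 1 + M 1 0) / 2) • VRM_re + M 1 1 • VRM_im))) v :=
    ((h3.mul_const (w.re : ℂ)).add (h4.mul_const (w.im : ℂ))).const_mul (Complex.I * (R : ℂ))
  rw [h5.fderiv]
  simp only [_root_.add_apply, _root_.smul_apply, smul_eq_mul, VRM_re_apply, VRM_im_apply]
  ring

/-! ## The matrix `M` -/

theorem VRM_inv_apply (W : Matrix (Fin 2) (Fin 2) ℂ) (i j : Fin 2) :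
    W⁻¹ i j = (W 0 0 * W 1 1 - W 0 1 * W 1 0)⁻¹ * (!![W 1 1, -W 0 1; -W 1 0, W 0 0] i j) := by
  rw [Matrix.inv_def, Matrix.adjugate_fin_two, Matrix.det_fin_two, Ring.inverse_eq_inv']
  rfl

theorem VRM_inv (Y : ℝ → Matrix (Fin 2) (Fin 2) ℂ) (Y' : Matrix (Fin 2) (Fin 2) ℂ) (t : ℝ)
    (hY : ∀ i j, HasDerivAt (fun s => Y s i j) (Y' i j) t) (hd : (Y t).det ≠ 0) (i j : Fin 2) :
    HasDerivAt (fun s => (Y s)⁻¹ i j) (-((Y t)⁻¹ * Y' * (Y t)⁻¹) i j) t := by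
  have hd' : Y t 0 0 * Y t 1 1 - Y t 0 1 * Y t 1 0 ≠ 0 := by
    rw [Matrix.det_fin_two] at hd
    exact hd
  have hdet : HasDerivAt (fun s => Y s 0 0 * Y s 1 1 - Y s 0 1 * Y s 1 0)
      ((Y' 0 0 * Y t 1 1 + Y t 0 0 * Y' 1 1) - (Y' 0 1 * Y t 1 0 + Y t 0 1 * Y' 1 0)) t :=
    ((hY 0 0).mul (hY 1 1)).sub ((hY 0 1).mul (hY 1 0))
  have hinv : HasDerivAt (fun s => (Y s 0 0 * Y s 1 1 - Y s 0 1 * Y s 1 0)⁻¹)
      (-((Y' 0 0 * Y t 1 1 + Y t 0 0 * Y' 1 1) - (Y' 0 1 * Y t 1 0 + Y t 0 1 * Y' 1 0)) /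
        (Y t 0 0 * Y t 1 1 - Y t 0 1 * Y t 1 0) ^ 2) t := hdet.inv hd'
  have hfun : (fun s => (Y s)⁻¹ i j) = fun s => (Y s 0 0 * Y s 1 1 - Y s 0 1 * Y s 1 0)⁻¹ *
      (!![Y s 1 1, -Y s 0 1; -Y s 1 0, Y s 0 0] i j) := funext fun s => VRM_inv_apply (Y s) i j
  rw [hfun]
  have hadj : HasDerivAt (fun s => !![Y s 1 1, -Y s 0 1; -Y s 1 0, Y s 0 0] i j)
      (!![Y' 1 1, -Y' 0 1; -Y' 1 0, Y' 0 0] i j) t := by
    fin_cases i <;> fin_cases j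
    · exact hY 1 1
    · exact (hY 0 1).neg
    · exact (hY 1 0).neg
    · exact hY 0 0
  refine (hinv.mul hadj).congr_deriv ?_
  simp only [Matrix.mul_apply, Fin.sum_univ_two, VRM_inv_apply]
  fin_cases i <;> fin_cases j <;>
    simp only [Matrix.of_apply, Matrix.cons_val', Matrix.cons_val_zero, Matrix.cons_val_one,
      Matrix.cons_val_fin_one, Fin.zero_eta, Fin.mk_one, Fin.isValue] <;> field_simp <;> ring

theorem VRM_M (P Y : ℝ → Matrix (Fin 2) (Fin 2) ℂ) (P' Y' : Matrix (Fin 2) (Fin 2) ℂ) (t : ℝ)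
    (hP : ∀ i j, HasDerivAt (fun s => P s i j) (P' i j) t)
    (hY : ∀ i j, HasDerivAt (fun s => Y s i j) (Y' i j) t) (hd : (Y t).det ≠ 0) (i j : Fin 2) :
    HasDerivAt (fun s => (P s * (Y s)⁻¹) i j)
      ((P' * (Y t)⁻¹ - P t * ((Y t)⁻¹ * Y' * (Y t)⁻¹)) i j) t := by
  have hI := VRM_inv Y Y' t hY hd
  have h1 : (fun s => (P s * (Y s)⁻¹) i j) =
      fun s => P s i 0 * (Y s)⁻¹ 0 j + P s i 1 * (Y s)⁻¹ 1 j := by
    funext s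
    rw [Matrix.mul_apply, Fin.sum_univ_two]
  rw [h1]
  refine (((hP i 0).mul (hI 0 j)).add ((hP i 1).mul (hI 1 j))).congr_deriv ?_
  have e1 : (P' * (Y t)⁻¹) i j = P' i 0 * (Y t)⁻¹ 0 j + P' i 1 * (Y t)⁻¹ 1 j := by
    rw [Matrix.mul_apply, Fin.sum_univ_two]
  have e2 : (P t * ((Y t)⁻¹ * Y' * (Y t)⁻¹)) i j =
      P t i 0 * ((Y t)⁻¹ * Y' * (Y t)⁻¹) 0 j + P t i 1 * ((Y t)⁻¹ * Y' * (Y t)⁻¹) 1 j := by
    rw [Matrix.mul_apply, Fin.sum_univ_two]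
  rw [Matrix.sub_apply, e1, e2]
  ring

theorem VRM_Meq (K P Y : Matrix (Fin 2) (Fin 2) ℂ) (κ : ℂ) (hd : Y.det ≠ 0) :
    (K * Y + κ • (JJ * P)) * Y⁻¹ - P * (Y⁻¹ * (P + κ • (JJ * Y)) * Y⁻¹) =
      K - P * Y⁻¹ * (P * Y⁻¹) + κ • (JJ * (P * Y⁻¹) - P * Y⁻¹ * JJ) := by
  have h : Y * Y⁻¹ = 1 := Matrix.mul_nonsing_inv Y (isUnit_iff_ne_zero.2 hd)
  have h1 : (K * Y + κ • (JJ * P)) * Y⁻¹ = K + κ • (JJ * (P * Y⁻¹)) := by
    rw [add_mul, Matrix.mul_assoc, h, Matrix.mul_one, Matrix.smul_mul, Matrix.mul_assoc]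
  have h2 : P * (Y⁻¹ * (P + κ • (JJ * Y)) * Y⁻¹) = P * Y⁻¹ * (P * Y⁻¹) + κ • (P * Y⁻¹ * JJ) := by
    rw [mul_add, add_mul, mul_add, Matrix.mul_smul, Matrix.smul_mul, Matrix.mul_smul]
    have h3 : Y⁻¹ * (JJ * Y) * Y⁻¹ = Y⁻¹ * JJ := by
      rw [Matrix.mul_assoc, Matrix.mul_assoc, h, Matrix.mul_one]
    rw [h3, Matrix.mul_assoc Y⁻¹ P Y⁻¹, ← Matrix.mul_assoc P Y⁻¹ (P * Y⁻¹), ← Matrix.mul_assoc P Y⁻¹ JJ]
  rw [h1, h2, smul_sub]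
  abel

/-! ## Derivatives along curves -/

theorem VRM_Q_curve (R : ℝ) (v : ℝ → ℂ) (v' : ℂ) (S ρ : ℝ → ℝ) (S' ρ' : ℝ)
    (M : ℝ → Matrix (Fin 2) (Fin 2) ℂ) (M' : Matrix (Fin 2) (Fin 2) ℂ) (t : ℝ) (hv : HasDerivAt v v' t)
    (hS : HasDerivAt S S' t) (hρ : HasDerivAt ρ ρ' t) (hM : ∀ i j, HasDerivAt (fun s => M s i j) (M' i j) t) :
    HasDerivAt (fun s => VRM_Q R (S s) (ρ s) (M s) (v s))
      (Complex.I * (R : ℂ) * (((S' + ρ' * (v t).re : ℝ) : ℂ) + qf M' (v t) / 2) +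
        fderiv ℝ (VRM_Q R (S t) (ρ t) (M t)) (v t) v') t := by
  have hfun : (fun s => VRM_Q R (S s) (ρ s) (M s) (v s)) = fun s =>
      Complex.I * (R : ℂ) * (((S s : ℂ) + (ρ s : ℂ) * VRM_re (v s)) +
        (1 / 2 * M s 0 0 * (VRM_re (v s) * VRM_re (v s)) +
        (1 / 2 * (M s 0 1 + M s 1 0)) * (VRM_re (v s) * VRM_im (v s)) +
        1 / 2 * M s 1 1 * (VRM_im (v s) * VRM_im (v s)))) := by
    funext s
    rw [VRM_Q_eq]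
  have h1 : HasDerivAt (fun s => VRM_re (v s)) (VRM_re v') t := (VRM_hre (v t)).comp_hasDerivAt t hv
  have h2 : HasDerivAt (fun s => VRM_im (v s)) (VRM_im v') t := (VRM_him (v t)).comp_hasDerivAt t hv
  have h3 : HasDerivAt (fun s => (S s : ℂ)) (S' : ℂ) t := hS.ofReal_comp
  have h4 : HasDerivAt (fun s => (ρ s : ℂ)) (ρ' : ℂ) t := hρ.ofReal_comp
  have h5 := (h3.add (h4.mul h1)).add (((((hM 0 0).const_mul (1 / 2 : ℂ)).mul (h1.mul h1)).add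
    ((((hM 0 1).add (hM 1 0)).const_mul (1 / 2 : ℂ)).mul (h1.mul h2))).add
    (((hM 1 1).const_mul (1 / 2 : ℂ)).mul (h2.mul h2)))
  rw [hfun]
  refine (h5.const_mul (Complex.I * (R : ℂ))).congr_deriv ?_
  rw [VRM_Q_f1]
  simp only [qf, VRM_re_apply, VRM_im_apply, Pi.mul_apply, Pi.add_apply]
  push_cast
  ring

theorem VRM_curve (X : ℂ → ℂ) (c : ℂ) (R : ℝ) (v : ℝ → ℂ) (v' : ℂ) (a : ℝ → ℂ) (a' : ℂ)
    (S ρ : ℝ → ℝ) (S' ρ' : ℝ) (M : ℝ → Matrix (Fin 2) (Fin 2) ℂ) (M' : Matrix (Fin 2) (Fin 2) ℂ)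
    (t : ℝ) (hX : DifferentiableAt ℝ X (v t)) (hv : HasDerivAt v v' t) (ha : HasDerivAt a a' t)
    (hS : HasDerivAt S S' t) (hρ : HasDerivAt ρ ρ' t)
    (hM : ∀ i j, HasDerivAt (fun s => M s i j) (M' i j) t) :
    HasDerivAt (fun s => X (v s) * (c * a s * Complex.exp (VRM_Q R (S s) (ρ s) (M s) (v s))))
      ((fderiv ℝ X (v t) v' * (c * a t) + X (v t) * (c * a') + X (v t) * (c * a t) *
        (Complex.I * (R : ℂ) * (((S' + ρ' * (v t).re : ℝ) : ℂ) + qf M' (v t) / 2) +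
          fderiv ℝ (VRM_Q R (S t) (ρ t) (M t)) (v t) v')) *
        Complex.exp (VRM_Q R (S t) (ρ t) (M t) (v t))) t := by
  have h1 : HasDerivAt (fun s => X (v s)) (fderiv ℝ X (v t) v') t :=
    hX.hasFDerivAt.comp_hasDerivAt t hv
  have h2 := (VRM_Q_curve R v v' S ρ S' ρ' M M' t hv hS hρ hM).cexp
  refine (h1.mul ((ha.const_mul c).mul h2)).congr_deriv ?_
  simp only [Pi.mul_apply]
  ring

/-! ## The data of the beam -/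

theorem VRM_XX (U : ℍ → ℝ) (E : ℝ) (g : SL(2, ℝ)) : XX U E g =
    !![rho U E g / 2, kap U E g / 2; -(kap U E g / 2), -(rho U E g / 2)] := by
  ext i j
  fin_cases i <;> fin_cases j <;>
    simp only [XX, A0, K0, Matrix.add_apply, Matrix.smul_apply, Matrix.of_apply, Matrix.cons_val',
      Matrix.cons_val_zero, Matrix.cons_val_one, Matrix.cons_val_fin_one, Fin.zero_eta, Fin.mk_one,
      Fin.isValue, smul_eq_mul] <;> ring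

theorem VRM_rho (hVDN : VDN_stmt) (hVUB : VUB_stmt) (Γ : Subgroup SL(2, ℝ)) (δ : ℝ) (B : ℕ → ℝ) (D : Dyn)
    (hD : OKD Γ δ B D) (hδ : δ ≤ 1 / 10) (E t : ℝ) (g0 : SL(2, ℝ)) (hE : |E| ≤ 1 / 8) :
    HasDerivAt (fun s => rho D.U E (D.fl E s g0)) (n1 D.U (D.fl E t g0) / 2) t := by
  have h1 : ∀ i j, HasDerivAt (fun s => (D.fl E s g0).1 i j) (((D.fl E t g0).1 *
      !![rho D.U E (D.fl E t g0) / 2, kap D.U E (D.fl E t g0) / 2; -(kap D.U E (D.fl E t g0) / 2),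
        -(rho D.U E (D.fl E t g0) / 2)]) i j) t := by
    intro i j
    have := hD.dfl E t g0 hE i j
    rw [VRM_XX] at this
    exact this
  have h2 := (hVDN Γ δ B D.U hD.pot hδ (fun s => D.fl E s g0) t (rho D.U E (D.fl E t g0))
    (kap D.U E (D.fl E t g0) / 2) (-(kap D.U E (D.fl E t g0) / 2)) E hE h1).2.2.2.1
  have h3 : 4 / 5 ≤ rho D.U E (D.fl E t g0) := ((hVUB Γ δ B D.U hD.pot hδ).2.2.1 E (D.fl E t g0) hE).1
  have h4 : rho D.U E (D.fl E t g0) ≠ 0 := by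
    intro h
    rw [h] at h3
    norm_num at h3
  refine h2.congr_deriv ?_
  rw [add_neg_cancel, mul_zero, sub_zero]
  field_simp

theorem VRM_dM (hVYA : VYA_stmt) (Γ : Subgroup SL(2, ℝ)) (δ : ℝ) (B : ℕ → ℝ) (D : Dyn)
    (hD : OKD Γ δ B D) (hδ : δ ≤ 1 / 10) (E t : ℝ) (g0 : SL(2, ℝ)) (hE : |E| ≤ 1 / 8) (i j : Fin 2) :
    HasDerivAt (fun s => D.M E s g0 i j) ((KK D.U E (D.fl E t g0) - D.M E t g0 * D.M E t g0 +
      ((kap D.U E (D.fl E t g0) : ℝ) : ℂ) • (JJ * D.M E t g0 - D.M E t g0 * JJ)) i j) t := by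
  have hd : (D.Y E t g0).det ≠ 0 := (hVYA Γ δ B D hD hδ E t g0 hE).1
  have h1 := VRM_M (fun s => D.P E s g0) (fun s => D.Y E s g0) _ _ t (hD.dP E t g0 hE) (hD.dY E t g0 hE) hd i j
  refine h1.congr_deriv ?_
  rw [VRM_Meq _ _ _ _ hd]
  rfl

/-! ## The algebra -/

theorem VRM_alg (i X dXv dX1 dXI LX c a e R r m0 m1 qt q1 q2 xr xi w U : ℂ) (hi : i ^ 2 = -1)
    (hr : r * (2 * R) = 1) :
    i * ((0 * (c * a) + X * (c * (-(1 / 2) * (m0 + m1) * a)) + X * (c * a) * (i * R * qt + 0)) * e) -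
      i * ((X * (i * R * (q1 * xr + q2 * xi)) + dXv) * (c * a * e)) -
      r * (-w * ((LX + 2 * (dX1 * (i * R * q1) + dXI * (i * R * q2)) +
        X * (i * R * m0 + i * R * m1 + (i * R * q1) ^ 2 + (i * R * q2) ^ 2)) * (c * a * e)) -
        R ^ 2 * U * (X * (c * a * e))) =
    c * a * e * (X * (R * (-qt + xr * q1 + xi * q2 - w / 2 * (q1 ^ 2 + q2 ^ 2) + U / 2) +
      i / 2 * (m0 + m1) * (w - 1)) - i * dXv + w * (LX * r + i * (dX1 * q1 + dXI * q2))) := by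
  have h1 : r * R = 1 / 2 := by linear_combination (1 / 2) * hr
  linear_combination (X * c * a * e * R * qt - X * R * (q1 * xr + q2 * xi) * c * a * e +
    r * w * X * R ^ 2 * (q1 ^ 2 + q2 ^ 2) * c * a * e) * hi +
    (2 * w * i * (dX1 * q1 + dXI * q2) * c * a * e + w * X * i * (m0 + m1) * c * a * e -
      w * X * R * (q1 ^ 2 + q2 ^ 2) * c * a * e + R * U * X * c * a * e) * h1

/-! ## The beam equation -/

/-- the cut-off as a function of `v` -/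
def VRM_X (ch : ℝ → ℝ) (ζ1 R : ℝ) (v : ℂ) : ℂ := ((ch (R ^ (1 - 2 * ζ1) * ‖v‖ ^ 2) : ℝ) : ℂ)

theorem VRM_X_smooth (ch : ℝ → ℝ) (ζ1 R : ℝ) (hch : CH ch) : ContDiff ℝ ∞ (VRM_X ch ζ1 R) := by
  have h1 : ContDiff ℝ ∞ (fun v : ℂ => ch (R ^ (1 - 2 * ζ1) * ‖v‖ ^ 2)) :=
    hch.smooth.comp (contDiff_const.mul (contDiff_norm_sq ℝ))
  exact Complex.ofRealCLM.contDiff.comp h1

theorem VRM_pv (D : Dyn) (ch : ℝ → ℝ) (ζ ζ1 R t : ℝ) (p : SL(2, ℝ) × ℝ) (v : ℂ) :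
    pv D ch ζ ζ1 R t p v = VRM_X ch ζ1 R v * ((cR ch ζ R : ℂ) * D.a p.2 t p.1 *
      Complex.exp (VRM_Q R (D.S p.2 t p.1) (rho D.U p.2 (D.fl p.2 t p.1)) (D.M p.2 t p.1) v)) := by
  simp only [pv, VRM_X, VRM_Q]
  push_cast
  ring

theorem VRM_pv_smooth (D : Dyn) (ch : ℝ → ℝ) (ζ ζ1 R t : ℝ) (p : SL(2, ℝ) × ℝ) (hch : CH ch) :
    ContDiff ℝ ∞ (pv D ch ζ ζ1 R t p) := by
  have h : pv D ch ζ ζ1 R t p = fun v => VRM_X ch ζ1 R v * ((cR ch ζ R : ℂ) * D.a p.2 t p.1 *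
      Complex.exp (VRM_Q R (D.S p.2 t p.1) (rho D.U p.2 (D.fl p.2 t p.1)) (D.M p.2 t p.1) v)) :=
    funext fun v => VRM_pv D ch ζ ζ1 R t p v
  rw [h]
  exact (VRM_X_smooth ch ζ1 R hch).mul (contDiff_const.mul (VRM_Q_smooth R _ _ _).cexp)

/-- the derivative of the beam along a curve -/
theorem VRM_dpv (hVYA : VYA_stmt) (hVDN : VDN_stmt) (hVUB : VUB_stmt) (ch : ℝ → ℝ) (ζ ζ1 R δ : ℝ)
    (Γ : Subgroup SL(2, ℝ)) (B : ℕ → ℝ) (D : Dyn) (p : SL(2, ℝ) × ℝ) (t : ℝ) (hch : CH ch)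
    (hD : OKD Γ δ B D) (hδ : δ ≤ 1 / 10) (hE : |p.2| ≤ 1 / 8) (v : ℝ → ℂ) (v' : ℂ) (hv : HasDerivAt v v' t) :
    HasDerivAt (fun s => pv D ch ζ ζ1 R s p (v s))
      ((fderiv ℝ (VRM_X ch ζ1 R) (v t) v' * ((cR ch ζ R : ℂ) * D.a p.2 t p.1) +
        VRM_X ch ζ1 R (v t) * ((cR ch ζ R : ℂ) * (-(1 / 2) * Matrix.trace (D.M p.2 t p.1) * D.a p.2 t p.1)) +
        VRM_X ch ζ1 R (v t) * ((cR ch ζ R : ℂ) * D.a p.2 t p.1) *
        (Complex.I * (R : ℂ) * ((((rho D.U p.2 (D.fl p.2 t p.1) ^ 2 + D.U (D.fl p.2 t p.1 • I)) / 2 +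
          n1 D.U (D.fl p.2 t p.1) / 2 * (v t).re : ℝ) : ℂ) + qf (KK D.U p.2 (D.fl p.2 t p.1) -
            D.M p.2 t p.1 * D.M p.2 t p.1 + ((kap D.U p.2 (D.fl p.2 t p.1) : ℝ) : ℂ) •
              (JJ * D.M p.2 t p.1 - D.M p.2 t p.1 * JJ)) (v t) / 2) +
          fderiv ℝ (VRM_Q R (D.S p.2 t p.1) (rho D.U p.2 (D.fl p.2 t p.1)) (D.M p.2 t p.1)) (v t) v')) *
        Complex.exp (VRM_Q R (D.S p.2 t p.1) (rho D.U p.2 (D.fl p.2 t p.1)) (D.M p.2 t p.1) (v t))) t := by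
  have h : (fun s => pv D ch ζ ζ1 R s p (v s)) = fun s => VRM_X ch ζ1 R (v s) *
      ((cR ch ζ R : ℂ) * D.a p.2 s p.1 * Complex.exp (VRM_Q R (D.S p.2 s p.1)
        (rho D.U p.2 (D.fl p.2 s p.1)) (D.M p.2 s p.1) (v s))) :=
    funext fun s => VRM_pv D ch ζ ζ1 R s p (v s)
  rw [h]
  exact VRM_curve (VRM_X ch ζ1 R) (cR ch ζ R : ℂ) R v v' (fun s => D.a p.2 s p.1) _
    (fun s => D.S p.2 s p.1) (fun s => rho D.U p.2 (D.fl p.2 s p.1)) _ _ (fun s => D.M p.2 s p.1) _ t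
    ((VRM_X_smooth ch ζ1 R hch).differentiable (by simp) (v t)) hv (hD.da p.2 t p.1 hE)
    (hD.dS p.2 t p.1 hE) (VRM_rho hVDN hVUB Γ δ B D hD hδ p.2 t p.1 hE)
    (VRM_dM hVYA Γ δ B D hD hδ p.2 t p.1 hE)

theorem VRM_Er (hVYA : VYA_stmt) (hVDN : VDN_stmt) (hVUB : VUB_stmt) (ch : ℝ → ℝ) (ζ ζ1 R δ : ℝ)
    (Γ : Subgroup SL(2, ℝ)) (B : ℕ → ℝ) (D : Dyn) (p : SL(2, ℝ) × ℝ) (t : ℝ) (hch : CH ch) (hR : 2 ≤ R)
    (hD : OKD Γ δ B D) (hδ : δ ≤ 1 / 10) (hE : |p.2| ≤ 1 / 8) (v : ℂ) :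
    Er D ch ζ ζ1 R t p v = (cR ch ζ R : ℂ) * D.a p.2 t p.1 *
      Complex.exp (VRM_Q R (D.S p.2 t p.1) (rho D.U p.2 (D.fl p.2 t p.1)) (D.M p.2 t p.1) v) *
      (VRM_X ch ζ1 R v * ((R : ℂ) * r3 D t p v + Complex.I / 2 * (D.M p.2 t p.1 0 0 + D.M p.2 t p.1 1 1) *
        (((1 - ‖v‖ ^ 2 / 4) ^ 2 - 1 : ℝ) : ℂ)) -
        Complex.I * fderiv ℝ (VRM_X ch ζ1 R) v
          (XV (rho D.U p.2 (D.fl p.2 t p.1)) (kap D.U p.2 (D.fl p.2 t p.1)) v) +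
        (((1 - ‖v‖ ^ 2 / 4) ^ 2 : ℝ) : ℂ) * (lp2 (VRM_X ch ζ1 R) v / (2 * (R : ℂ)) +
          Complex.I * (fderiv ℝ (VRM_X ch ζ1 R) v 1 * ((rho D.U p.2 (D.fl p.2 t p.1) : ℂ) +
            D.M p.2 t p.1 0 0 * (v.re : ℂ) + D.M p.2 t p.1 0 1 * (v.im : ℂ)) +
            fderiv ℝ (VRM_X ch ζ1 R) v Complex.I * (D.M p.2 t p.1 1 0 * (v.re : ℂ) +
              D.M p.2 t p.1 1 1 * (v.im : ℂ))))) := by
  have hXs := VRM_X_smooth ch ζ1 R hch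
  have hQs := VRM_Q_smooth R (D.S p.2 t p.1) (rho D.U p.2 (D.fl p.2 t p.1)) (D.M p.2 t p.1)
  have hsym : D.M p.2 t p.1 0 1 = D.M p.2 t p.1 1 0 := (hVYA Γ δ B D hD hδ p.2 t p.1 hE).2.2.2.1
  have hpv : pv D ch ζ ζ1 R t p = fun v => VRM_X ch ζ1 R v * ((cR ch ζ R : ℂ) * D.a p.2 t p.1 *
      Complex.exp (VRM_Q R (D.S p.2 t p.1) (rho D.U p.2 (D.fl p.2 t p.1)) (D.M p.2 t p.1) v)) :=
    funext fun v => VRM_pv D ch ζ ζ1 R t p v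
  have hder := (VRM_dpv hVYA hVDN hVUB ch ζ ζ1 R δ Γ B D p t hch hD hδ hE (fun _ => v) 0
    (hasDerivAt_const t v)).deriv
  have hXd : DifferentiableAt ℝ (VRM_X ch ζ1 R) v := hXs.differentiable (by simp) v
  have hQd : DifferentiableAt ℝ (VRM_Q R (D.S p.2 t p.1) (rho D.U p.2 (D.fl p.2 t p.1))
    (D.M p.2 t p.1)) v := hQs.differentiable (by simp) v
  have hX2 : ContDiff ℝ 2 (VRM_X ch ζ1 R) := hXs.of_le (by norm_cast)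
  have hQ2 : ContDiff ℝ 2 (VRM_Q R (D.S p.2 t p.1) (rho D.U p.2 (D.fl p.2 t p.1)) (D.M p.2 t p.1)) :=
    hQs.of_le (by norm_cast)
  have hr : (((2 * R)⁻¹ : ℝ) : ℂ) * (2 * (R : ℂ)) = 1 := by
    have : (2 * R)⁻¹ * (2 * R) = 1 := inv_mul_cancel₀ (by linarith)
    exact_mod_cast this
  have hr' : lp2 (VRM_X ch ζ1 R) v / (2 * (R : ℂ)) = lp2 (VRM_X ch ζ1 R) v * (((2 * R)⁻¹ : ℝ) : ℂ) := by
    push_cast
    rw [div_eq_mul_inv]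
  have key := VRM_alg Complex.I (VRM_X ch ζ1 R v) (fderiv ℝ (VRM_X ch ζ1 R) v
      (XV (rho D.U p.2 (D.fl p.2 t p.1)) (kap D.U p.2 (D.fl p.2 t p.1)) v))
    (fderiv ℝ (VRM_X ch ζ1 R) v 1) (fderiv ℝ (VRM_X ch ζ1 R) v Complex.I) (lp2 (VRM_X ch ζ1 R) v)
    (cR ch ζ R : ℂ) (D.a p.2 t p.1)
    (Complex.exp (VRM_Q R (D.S p.2 t p.1) (rho D.U p.2 (D.fl p.2 t p.1)) (D.M p.2 t p.1) v)) (R : ℂ)
    (((2 * R)⁻¹ : ℝ) : ℂ) (D.M p.2 t p.1 0 0) (D.M p.2 t p.1 1 1)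
    ((((rho D.U p.2 (D.fl p.2 t p.1) ^ 2 + D.U (D.fl p.2 t p.1 • I)) / 2 +
          n1 D.U (D.fl p.2 t p.1) / 2 * v.re : ℝ) : ℂ) + qf (KK D.U p.2 (D.fl p.2 t p.1) -
            D.M p.2 t p.1 * D.M p.2 t p.1 + ((kap D.U p.2 (D.fl p.2 t p.1) : ℝ) : ℂ) •
              (JJ * D.M p.2 t p.1 - D.M p.2 t p.1 * JJ)) v / 2)
    ((rho D.U p.2 (D.fl p.2 t p.1) : ℂ) + D.M p.2 t p.1 0 0 * (v.re : ℂ) + D.M p.2 t p.1 0 1 * (v.im : ℂ))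
    (D.M p.2 t p.1 1 0 * (v.re : ℂ) + D.M p.2 t p.1 1 1 * (v.im : ℂ))
    (((XV (rho D.U p.2 (D.fl p.2 t p.1)) (kap D.U p.2 (D.fl p.2 t p.1)) v).re : ℝ) : ℂ)
    (((XV (rho D.U p.2 (D.fl p.2 t p.1)) (kap D.U p.2 (D.fl p.2 t p.1)) v).im : ℝ) : ℂ)
    (((1 - ‖v‖ ^ 2 / 4) ^ 2 : ℝ) : ℂ) ((Ug D.U (D.fl p.2 t p.1) v : ℝ) : ℂ) Complex.I_sq hr
  have hr3 : r3 D t p v = -((((rho D.U p.2 (D.fl p.2 t p.1) ^ 2 + D.U (D.fl p.2 t p.1 • I)) / 2 +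
          n1 D.U (D.fl p.2 t p.1) / 2 * v.re : ℝ) : ℂ) + qf (KK D.U p.2 (D.fl p.2 t p.1) -
            D.M p.2 t p.1 * D.M p.2 t p.1 + ((kap D.U p.2 (D.fl p.2 t p.1) : ℝ) : ℂ) •
              (JJ * D.M p.2 t p.1 - D.M p.2 t p.1 * JJ)) v / 2) +
    (((XV (rho D.U p.2 (D.fl p.2 t p.1)) (kap D.U p.2 (D.fl p.2 t p.1)) v).re : ℝ) : ℂ) *
      ((rho D.U p.2 (D.fl p.2 t p.1) : ℂ) + D.M p.2 t p.1 0 0 * (v.re : ℂ) + D.M p.2 t p.1 0 1 * (v.im : ℂ)) +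
    (((XV (rho D.U p.2 (D.fl p.2 t p.1)) (kap D.U p.2 (D.fl p.2 t p.1)) v).im : ℝ) : ℂ) *
      (D.M p.2 t p.1 1 0 * (v.re : ℂ) + D.M p.2 t p.1 1 1 * (v.im : ℂ)) -
    (((1 - ‖v‖ ^ 2 / 4) ^ 2 / 2 : ℝ) : ℂ) *
      (((rho D.U p.2 (D.fl p.2 t p.1) : ℂ) + D.M p.2 t p.1 0 0 * (v.re : ℂ) + D.M p.2 t p.1 0 1 * (v.im : ℂ)) ^ 2 +
      (D.M p.2 t p.1 1 0 * (v.re : ℂ) + D.M p.2 t p.1 1 1 * (v.im : ℂ)) ^ 2) +
    ((Ug D.U (D.fl p.2 t p.1) v / 2 : ℝ) : ℂ) := rfl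
  have htr : Matrix.trace (D.M p.2 t p.1) = D.M p.2 t p.1 0 0 + D.M p.2 t p.1 1 1 := Matrix.trace_fin_two _
  have hqw : ∀ w : ℂ, fderiv ℝ (VRM_Q R (D.S p.2 t p.1) (rho D.U p.2 (D.fl p.2 t p.1)) (D.M p.2 t p.1)) v w =
      Complex.I * (R : ℂ) * (((rho D.U p.2 (D.fl p.2 t p.1) : ℂ) + D.M p.2 t p.1 0 0 * (v.re : ℂ) +
        D.M p.2 t p.1 0 1 * (v.im : ℂ)) * (w.re : ℂ) +
        (D.M p.2 t p.1 1 0 * (v.re : ℂ) + D.M p.2 t p.1 1 1 * (v.im : ℂ)) * (w.im : ℂ)) := by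
    intro w
    rw [VRM_Q_f1, hsym]
    ring
  have hl2 : lp2 (pv D ch ζ ζ1 R t p) v = (lp2 (VRM_X ch ζ1 R) v +
      2 * (fderiv ℝ (VRM_X ch ζ1 R) v 1 * (Complex.I * (R : ℂ) * ((rho D.U p.2 (D.fl p.2 t p.1) : ℂ) +
        D.M p.2 t p.1 0 0 * (v.re : ℂ) + D.M p.2 t p.1 0 1 * (v.im : ℂ))) +
      fderiv ℝ (VRM_X ch ζ1 R) v Complex.I * (Complex.I * (R : ℂ) * (D.M p.2 t p.1 1 0 * (v.re : ℂ) +
        D.M p.2 t p.1 1 1 * (v.im : ℂ)))) + VRM_X ch ζ1 R v *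
      (Complex.I * (R : ℂ) * D.M p.2 t p.1 0 0 + Complex.I * (R : ℂ) * D.M p.2 t p.1 1 1 +
      (Complex.I * (R : ℂ) * ((rho D.U p.2 (D.fl p.2 t p.1) : ℂ) +
        D.M p.2 t p.1 0 0 * (v.re : ℂ) + D.M p.2 t p.1 0 1 * (v.im : ℂ))) ^ 2 +
      (Complex.I * (R : ℂ) * (D.M p.2 t p.1 1 0 * (v.re : ℂ) + D.M p.2 t p.1 1 1 * (v.im : ℂ))) ^ 2)) *
      ((cR ch ζ R : ℂ) * D.a p.2 t p.1 *
        Complex.exp (VRM_Q R (D.S p.2 t p.1) (rho D.U p.2 (D.fl p.2 t p.1)) (D.M p.2 t p.1) v)) := by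
    rw [lp2, hpv, VRM_f2 _ _ _ _ _ hX2 hQ2, VRM_f2 _ _ _ _ _ hX2 hQ2, VRM_Q_f2, VRM_Q_f2, hqw, hqw, lp2]
    simp only [Complex.one_re, Complex.one_im, Complex.I_re, Complex.I_im, Complex.ofReal_one,
      Complex.ofReal_zero]
    ring
  have hfX : ∀ w : ℂ, fderiv ℝ (pv D ch ζ ζ1 R t p) v w = (VRM_X ch ζ1 R v *
      (Complex.I * (R : ℂ) * (((rho D.U p.2 (D.fl p.2 t p.1) : ℂ) + D.M p.2 t p.1 0 0 * (v.re : ℂ) +
        D.M p.2 t p.1 0 1 * (v.im : ℂ)) * (w.re : ℂ) +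
        (D.M p.2 t p.1 1 0 * (v.re : ℂ) + D.M p.2 t p.1 1 1 * (v.im : ℂ)) * (w.im : ℂ))) +
      fderiv ℝ (VRM_X ch ζ1 R) v w) * ((cR ch ζ R : ℂ) * D.a p.2 t p.1 *
        Complex.exp (VRM_Q R (D.S p.2 t p.1) (rho D.U p.2 (D.fl p.2 t p.1)) (D.M p.2 t p.1) v)) := by
    intro w
    rw [hpv, VRM_f1 _ _ _ _ _ hXd hQd, hqw]
  rw [Er, Lg, hder, hl2, hfX, VRM_pv, hr3, hr', htr, map_zero, map_zero]
  refine Eq.trans ?_ (key.trans ?_)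
  · push_cast
    ring
  · push_cast
    ring

theorem VRM_cdi (z : ℍ) : cdi (cd z) = z := by
  have hz : (z : ℂ) + Complex.I ≠ 0 := by
    intro h
    have h1 : ((z : ℂ) + Complex.I).im = 0 := by rw [h, Complex.zero_im]
    have h2 : 0 < z.im := z.im_pos
    rw [Complex.add_im, Complex.I_im, UpperHalfPlane.coe_im] at h1
    linarith
  have hI : Complex.I ≠ 0 := Complex.I_ne_zero
  have h1 : 2 + cd z = 4 * (z : ℂ) / ((z : ℂ) + Complex.I) := by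
    rw [cd]
    field_simp
    ring
  have h2 : 2 - cd z = 4 * Complex.I / ((z : ℂ) + Complex.I) := by
    rw [cd]
    field_simp
    ring
  have h3 : Complex.I * (2 + cd z) / (2 - cd z) = (z : ℂ) := by
    rw [h1, h2]
    field_simp
  rw [cdi, h3, ofComplex_apply]

theorem VRM_alg2 (i L x y X C T q e : ℂ) (hi : i ^ 2 = -1) :
    (-x * C + X * T + X * C * (q + -y)) * e =
      -(i * L) - i * (i * ((0 * C + X * T + X * C * (q + 0)) * e) - i * ((X * y + x) * (C * e)) - L) := by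
  linear_combination ((X * T + X * C * q - X * C * y - x * C) * e) * hi

theorem VRM_psi (hVYA : VYA_stmt) (hVDN : VDN_stmt) (hVUB : VUB_stmt) (hVLP : VLP_stmt) (hVDV : VDV_stmt)
    (ch : ℝ → ℝ) (ζ ζ1 R δ : ℝ) (Γ : Subgroup SL(2, ℝ)) (B : ℕ → ℝ) (D : Dyn) (p : SL(2, ℝ) × ℝ) (t : ℝ)
    (hch : CH ch) (hD : OKD Γ δ B D) (hδ : δ ≤ 1 / 10) (hE : |p.2| ≤ 1 / 8) (z : ℍ) :
    QU.CD 2 (psi D ch ζ ζ1 R t p) ∧ HasDerivAt (fun s => psi D ch ζ ζ1 R s p z)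
      (-(Complex.I * Hop D.U R (psi D ch ζ ζ1 R t p) z) -
        Complex.I * Er D ch ζ ζ1 R t p (cd ((D.fl p.2 t p.1)⁻¹ • z))) t := by
  have hXs := VRM_X_smooth ch ζ1 R hch
  have hQs := VRM_Q_smooth R (D.S p.2 t p.1) (rho D.U p.2 (D.fl p.2 t p.1)) (D.M p.2 t p.1)
  have hpsi : psi D ch ζ ζ1 R t p = fun z => pv D ch ζ ζ1 R t p (cd ((D.fl p.2 t p.1)⁻¹ • z)) := rfl
  have hlp := hVLP.2 (pv D ch ζ ζ1 R t p) (D.fl p.2 t p.1)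
    ((VRM_pv_smooth D ch ζ ζ1 R t p hch).of_le (by norm_cast))
  have hpv : pv D ch ζ ζ1 R t p = fun v => VRM_X ch ζ1 R v * ((cR ch ζ R : ℂ) * D.a p.2 t p.1 *
      Complex.exp (VRM_Q R (D.S p.2 t p.1) (rho D.U p.2 (D.fl p.2 t p.1)) (D.M p.2 t p.1) v)) :=
    funext fun v => VRM_pv D ch ζ ζ1 R t p v
  refine ⟨hlp.1, ?_⟩
  have hv : HasDerivAt (fun s => cd ((D.fl p.2 s p.1)⁻¹ • z))
      (-(XV (rho D.U p.2 (D.fl p.2 t p.1)) (kap D.U p.2 (D.fl p.2 t p.1)) (cd ((D.fl p.2 t p.1)⁻¹ • z)))) t :=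
    hVDV (fun s => D.fl p.2 s p.1) t (rho D.U p.2 (D.fl p.2 t p.1)) (kap D.U p.2 (D.fl p.2 t p.1)) z
      (hD.dfl p.2 t p.1 hE)
  have h1 := VRM_dpv hVYA hVDN hVUB ch ζ ζ1 R δ Γ B D p t hch hD hδ hE _ _ hv
  have h0 := (VRM_dpv hVYA hVDN hVUB ch ζ ζ1 R δ Γ B D p t hch hD hδ hE
    (fun _ => cd ((D.fl p.2 t p.1)⁻¹ • z)) 0 (hasDerivAt_const t _)).deriv
  have hfX := VRM_f1 (VRM_X ch ζ1 R) (VRM_Q R (D.S p.2 t p.1) (rho D.U p.2 (D.fl p.2 t p.1))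
    (D.M p.2 t p.1)) ((cR ch ζ R : ℂ) * D.a p.2 t p.1) (cd ((D.fl p.2 t p.1)⁻¹ • z))
    (XV (rho D.U p.2 (D.fl p.2 t p.1)) (kap D.U p.2 (D.fl p.2 t p.1)) (cd ((D.fl p.2 t p.1)⁻¹ • z)))
    (hXs.differentiable (by simp) _) (hQs.differentiable (by simp) _)
  rw [← hpv] at hfX
  have hL : Hop D.U R (psi D ch ζ ζ1 R t p) z =
      Lg D.U R (D.fl p.2 t p.1) (pv D ch ζ ζ1 R t p) (cd ((D.fl p.2 t p.1)⁻¹ • z)) := by
    have hU : Ug D.U (D.fl p.2 t p.1) (cd ((D.fl p.2 t p.1)⁻¹ • z)) = D.U z := by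
      rw [Ug, VRM_cdi, smul_inv_smul]
    rw [Hop, Lg, hU, hpsi, hlp.2 z, lp2]
  refine h1.congr_deriv ?_
  rw [hL, Er, h0, hfX, map_neg, map_neg, map_zero, map_zero]
  exact VRM_alg2 _ _ _ _ _ _ _ _ _ Complex.I_sq

theorem VRM_proof (hVYA : VYA_stmt) (hVDN : VDN_stmt) (hVUB : VUB_stmt) (hVLP : VLP_stmt)
    (hVDV : VDV_stmt) : VRM_stmt := by
  intro ch ζ ζ1 R δ Γ B D p t hch _ _ hR hD hδ hE
  exact ⟨fun v => VRM_Er hVYA hVDN hVUB ch ζ ζ1 R δ Γ B D p t hch hR hD hδ hE v,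
    fun z => VRM_psi hVYA hVDN hVUB hVLP hVDV ch ζ ζ1 R δ Γ B D p t hch hD hδ hE z⟩

end

end Pool.Agent.VQ
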