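import Pool.Agent.helper93.VQ.Spec4c

/-!
# Row RLC of project VQ (MP_07c750_an): large deviations by induction over the class of regular curves
-/

set_option autoImplicit false

open scoped MatrixGroups ContDiff Topology UpperHalfPlane ComplexConjugate ENNReal
open UpperHalfPlane MeasureTheory Filter Set

namespace Pool.Agent.VQ

open Pool.Agent.RS
open Pool.Agent.RPQ (mean)
open Pool.Agent.VQE (nm)

theorem RLC_mono {κ : ℝ} {γ : ℝ → SL(2, ℝ)} {x b c ℓ : ℝ → ℝ} (h : RG κ γ x b c ℓ) : StrictMono ℓ := by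
  refine strictMono_of_deriv_pos fun v => ?_
  rw [(h.dl v).deriv]
  exact h.pos v

theorem RLC_cont {κ : ℝ} {γ : ℝ → SL(2, ℝ)} {x b c ℓ : ℝ → ℝ} (h : RG κ γ x b c ℓ) : Continuous ℓ :=
  continuous_iff_continuousAt.2 fun v => (h.dl v).continuousAt

theorem RLC_proof (hRGF : RGF_stmt) (hRPI : RPI_stmt) : RLC_stmt := by
  classical
  intro d D hF hd0 hd E T0 l0 v0 z B B' hE hT0 hl0 hl0' hv0 hz H1 H2 n
  have hz0 : 0 ≤ z := by linarith
  have hzv : 0 ≤ 1 + z * v0 := by positivity
  induction n with
  | zero =>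
    intro γ x b c ℓ v v' hγ hv hl
    simp only [nbd, pow_zero, one_mul]
    rw [ENNReal.ofReal_one, lintegral_one, Measure.restrict_apply_univ, Real.volume_Icc]
  | succ n ih =>
    have piece : ∀ (γ : ℝ → SL(2, ℝ)) (x b c ℓ : ℝ → ℝ) (y y' : ℝ), RG 2 γ x b c ℓ → y < y' →
        l0 ≤ ℓ y' - ℓ y → ℓ y' - ℓ y ≤ 2 * l0 →
        ∫⁻ u in Icc y y', ENNReal.ofReal (z ^ nbd (D.fl E T0) B (n + 1) (γ u)) ≤
          ENNReal.ofReal ((1 + z * v0) ^ (n + 1) * (y' - y)) := by
      intro γ x b c ℓ y y' hγ hy hl hl2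
      obtain ⟨X, Y, Z, L, h0, hVS, hCC, hL0, hgr, hRG, -⟩ := hRGF d D hF hd0 hd E γ x b c ℓ hE hγ
      have hγ1 : RG 2 (fun v => D.fl E T0 (γ v)) (X T0) (Y T0) (Z T0) (L T0) := hRG T0 hT0
      have hlen : l0 ≤ L T0 y' - L T0 y := by
        have h1 := (hgr 0 T0 y y' le_rfl (by linarith) hy.le).1
        rw [hL0 y y'] at h1
        have h2 : 1 ≤ Real.exp (99 / 100 * (T0 - 0)) := Real.one_le_exp (by linarith)
        nlinarith
      obtain ⟨k, q, hk, hq0, hqk, hqlt, hqlen, hqsum, hqint, hqJ⟩ :=
        hRPI (L T0) y y' l0 (RLC_cont hγ1) (RLC_mono hγ1) hl0 hy hlen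
      obtain ⟨J, hJ⟩ : ∃ J : Finset ℕ, J = (Finset.range k).filter
        fun i => ∃ u ∈ Icc (q i) (q (i + 1)), γ u ∈ B := ⟨_, rfl⟩
      have hJsub : J ⊆ Finset.range k := by
        rw [hJ]
        exact Finset.filter_subset _ _
      have hbad : ∑ i ∈ J, (q (i + 1) - q i) ≤ v0 * (y' - y) := by
        have h1 := hqJ J {u | γ u ∈ B'} hJsub (by
          intro i hi w hw
          rw [hJ, Finset.mem_filter] at hi
          obtain ⟨hik, u, hu, huB⟩ := hi
          have hik' := Finset.mem_range.1 hik
          refine H1 γ x b c ℓ _ _ _ _ hγ hγ1 u w ?_ huB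
          have hm := (RLC_mono hγ1).monotone
          have a1 := hm hu.1
          have a2 := hm hu.2
          have a3 := hm hw.1
          have a4 := hm hw.2
          have a5 := (hqlen i hik').2
          rw [abs_le]
          constructor <;> linarith)
        have h2 := H2 γ x b c ℓ hγ y y' hy hl hl2
        have h3 : ({u | γ u ∈ B'} ∩ Icc y y' : Set ℝ) = {u : ℝ | u ∈ Icc y y' ∧ γ u ∈ B'} := by
          ext u
          exact and_comm
        rw [h3] at h1
        have h4 := h1.trans h2
        exact (ENNReal.ofReal_le_ofReal_iff (mul_nonneg hv0 (by linarith))).1 h4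
      have hC : 0 ≤ (1 + z * v0) ^ n := pow_nonneg hzv n
      have hQ : ∀ i ∈ Finset.range k,
          ∫⁻ u in Icc (q i) (q (i + 1)), ENNReal.ofReal (z ^ nbd (D.fl E T0) B (n + 1) (γ u)) ≤
            ENNReal.ofReal ((1 + z * v0) ^ n * (q (i + 1) - q i) +
              if i ∈ J then z * ((1 + z * v0) ^ n * (q (i + 1) - q i)) else 0) := by
        intro i hi
        have hik := Finset.mem_range.1 hi
        have hIH := ih (fun v => D.fl E T0 (γ v)) (X T0) (Y T0) (Z T0) (L T0) (q i) (q (i + 1)) hγ1
          (hqlt i hik) (hqlen i hik).1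
        have hqp : 0 ≤ q (i + 1) - q i := by linarith [hqlt i hik]
        by_cases hiJ : i ∈ J
        · rw [if_pos hiJ]
          have h1 : ∀ u, ENNReal.ofReal (z ^ nbd (D.fl E T0) B (n + 1) (γ u)) ≤
              ENNReal.ofReal z * ENNReal.ofReal (z ^ nbd (D.fl E T0) B n (D.fl E T0 (γ u))) := by
            intro u
            rw [← ENNReal.ofReal_mul hz0]
            apply ENNReal.ofReal_le_ofReal
            simp only [nbd]
            split_ifs
            · rw [pow_add, pow_one]
            · rw [zero_add]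
              exact le_mul_of_one_le_left (pow_nonneg hz0 _) hz
          refine (lintegral_mono h1).trans ?_
          rw [lintegral_const_mul' _ _ ENNReal.ofReal_ne_top]
          refine (mul_le_mul_right hIH _).trans ?_
          rw [← ENNReal.ofReal_mul hz0]
          apply ENNReal.ofReal_le_ofReal
          have := mul_nonneg hC hqp
          linarith
        · rw [if_neg hiJ, add_zero]
          refine le_trans (le_of_eq ?_) hIH
          refine setLIntegral_congr_fun measurableSet_Icc fun u hu => ?_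
          have huB : γ u ∉ B := by
            intro huB
            apply hiJ
            rw [hJ, Finset.mem_filter]
            exact ⟨hi, u, hu, huB⟩
          simp only [nbd]
          rw [if_neg huB, zero_add]
      rw [hqint]
      refine (Finset.sum_le_sum hQ).trans ?_
      rw [← ENNReal.ofReal_sum_of_nonneg]
      · apply ENNReal.ofReal_le_ofReal
        rw [Finset.sum_add_distrib, ← Finset.mul_sum, hqsum, ← Finset.sum_filter]
        have h5 : (Finset.range k).filter (fun i => i ∈ J) = J := by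
          ext i
          rw [Finset.mem_filter]
          exact ⟨fun h => h.2, fun h => ⟨hJsub h, h⟩⟩
        rw [h5, ← Finset.mul_sum, ← Finset.mul_sum, pow_succ]
        have h6 : z * ((1 + z * v0) ^ n * ∑ i ∈ J, (q (i + 1) - q i)) ≤
            z * ((1 + z * v0) ^ n * (v0 * (y' - y))) :=
          mul_le_mul_of_nonneg_left (mul_le_mul_of_nonneg_left hbad hC) hz0
        refine (add_le_add_right h6 _).trans (le_of_eq ?_)
        ring
      · intro i hi
        have hqp : 0 ≤ q (i + 1) - q i := by linarith [hqlt i (Finset.mem_range.1 hi)]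
        have h7 := mul_nonneg hC hqp
        split_ifs
        · have := mul_nonneg hz0 h7
          linarith
        · linarith
    intro γ x b c ℓ v v' hγ hv hl
    obtain ⟨k, q, hk, hq0, hqk, hqlt, hqlen, hqsum, hqint, -⟩ :=
      hRPI ℓ v v' l0 (RLC_cont hγ) (RLC_mono hγ) hl0 hv hl
    rw [hqint]
    refine (Finset.sum_le_sum fun i hi => piece γ x b c ℓ (q i) (q (i + 1)) hγ
      (hqlt i (Finset.mem_range.1 hi)) (hqlen i (Finset.mem_range.1 hi)).1
      (hqlen i (Finset.mem_range.1 hi)).2).trans ?_
    rw [← ENNReal.ofReal_sum_of_nonneg]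
    · rw [← Finset.mul_sum, hqsum]
    · intro i hi
      exact mul_nonneg (pow_nonneg hzv _) (by linarith [hqlt i (Finset.mem_range.1 hi)])

end Pool.Agent.VQ
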